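import Pool.Agent.H65.AP.Targets

/-! Row DNS of crr_modules (MP_0ee698_an): countable families of test fields suffice. -/

set_option autoImplicit false

open MeasureTheory Set Filter Topology Metric
open scoped ENNReal NNReal ContDiff RealInnerProductSpace

namespace Pool.Agent.H95.AP

open Pool.Agent.H94.IC Pool.Agent.H94.AC Pool.Agent.H92.CK Pool.Agent.H65.AP

theorem pf_DNS (hCRL : T_CRL) : T_DNS := by
  intro Ω η hΩ _ hη
  -- the test fields
  let D : Type := {B : E → E // ContDiff ℝ ∞ B ∧ HasCompactSupport B}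
  have hmem : ∀ B : D, MemLp (curl fun z => η z • B.1 z) 2 (volume.restrict Ω) := by
    intro B
    have hs : ContDiff ℝ ∞ (fun z => η z • B.1 z) := hη.smul B.2.1
    obtain ⟨h1, h2, -⟩ := hCRL.1 _ hs
    have hc : HasCompactSupport (fun z => η z • B.1 z) :=
      HasCompactSupport.smul_left (f := η) (f' := B.1) B.2.2
    have hc2 : HasCompactSupport (curl fun z => η z • B.1 z) :=
      IsCompact.of_isClosed_subset hc (isClosed_tsupport _) h2
    exact h1.continuous.memLp_of_hasCompactSupport hc2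
  let Φ : D → Lp E 2 (volume.restrict Ω) := fun B => (hmem B).toLp _
  letI tD : TopologicalSpace D := TopologicalSpace.induced Φ inferInstance
  haveI : SecondCountableTopology (Lp E 2 (volume.restrict Ω)) := by
    haveI : Fact ((2 : ℝ≥0∞) ≠ ⊤) := ⟨by simp⟩
    haveI : MeasureTheory.IsSeparable (volume.restrict Ω : Measure E) := inferInstance
    exact Lp.SecondCountableTopology
  haveI : SecondCountableTopology D := TopologicalSpace.secondCountableTopology_induced D _ Φ
  haveI : Nonempty D := ⟨⟨fun _ => 0, contDiff_const, HasCompactSupport.zero⟩⟩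
  have hΦ : Continuous Φ := continuous_induced_dom
  refine ⟨fun i => (TopologicalSpace.denseSeq D i).1, fun i => (TopologicalSpace.denseSeq D i).2, ?_⟩
  intro P hP h0 B hB hBc
  have hin : ∀ B : D, ⟪hP.toLp P, Φ B⟫ = ∫ y in Ω, ⟪P y, curl (fun z => η z • B.1 z) y⟫ := by
    intro B
    rw [L2.inner_def]
    refine integral_congr_ae ?_
    filter_upwards [hP.coeFn_toLp, (hmem B).coeFn_toLp] with y hy1 hy2
    rw [hy1]
    congr 1
  have hcl : IsClosed {B : D | ⟪hP.toLp P, Φ B⟫ = 0} :=
    isClosed_eq (continuous_const.inner hΦ) continuous_const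
  have hsub : Set.range (TopologicalSpace.denseSeq D) ⊆ {B : D | ⟪hP.toLp P, Φ B⟫ = 0} := by
    rintro _ ⟨i, rfl⟩
    show ⟪hP.toLp P, Φ _⟫ = 0
    rw [hin]
    exact h0 i
  have hall : (⟨B, hB, hBc⟩ : D) ∈ {B : D | ⟪hP.toLp P, Φ B⟫ = 0} :=
    (hcl.closure_subset_iff.2 hsub) (TopologicalSpace.denseRange_denseSeq D _)
  have h2 : ⟪hP.toLp P, Φ ⟨B, hB, hBc⟩⟫ = 0 := hall
  rw [hin] at h2
  exact h2

end Pool.Agent.H95.AP
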